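import Pool.Agent.helper34.Soliton.Final

set_option autoImplicit false

/-!
# Subcritical and critical heat kernels: the ratio need not tend to zero

The manifold is `M = ℝ`.  Both operators are Schrödinger operators `-d²/dx² + c` with a bounded
potential `c`.  The potential is `V + 1`, where `V` is an infinite soliton (reflectionless)
potential with eigenvalues `-κ_j²`, `κ_j → 1`, and norming constants `c_j`.  Its heat kernel is
explicit,
`k(x, y, t) = e^{-t} (g_t(x - y) + ∑_j ψ_j(x) ψ_j(y) E_{κ_j}(x - y, t))`, where `g_t` is the Gaussian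
kernel and
`E_κ(ξ, t) = e^{κ² t} π^{-1/2} ∫_{ξ/(2√t) - κ√t}^{ξ/(2√t) + κ√t} e^{-s²} ds`,
so that `k(0, 0, t)` is comparable, for large `t`, with `∑_j c_j² e^{-λ_j t}`, `λ_j = 1 - κ_j²`.
The operator is subcritical if `∑ c_j² / λ_j < ∞`, and critical if this sum diverges.
For `P_+` we take `λ_j = 4^{-j-1}`, `c_j = λ_j / 8`, so that `k_+(0, 0, t) ≥ C t^{-2}`;
for `P_0` we take `λ_j = 4^{-16^j}` and `c_j² = λ_j / 64`, and `k_0(0, 0, t_n) ≤ C t_n^{-4}` for
`t_n = 2^{4 · 16^n}`.  Positivity and minimality of `k` follow from the maximum principle.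
-/

open MeasureTheory Set Filter Topology
open Pool.Agent.helper34.HeatLine

namespace Pool.Agent.Results.MP_13e997_an.RatioUnbounded

/-- There are a subcritical operator `P₊` and a critical operator `P₀` on `ℝ`, both symmetric
(`a = 1`, `b = 0`), and times `t n → ∞` such that the ratio of their heat kernels at the point
`(0, 0)` tends to `+∞` along `t n`; in particular the ratio does not tend to `0` uniformly on
the compact set `{(0, 0)}`. -/
theorem result : ∃ (Pp P0 : EllipticOp) (kp k0 : ℝ → ℝ → ℝ → ℝ),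
    (∀ x, Pp.a x = 1 ∧ Pp.b x = 0 ∧ P0.a x = 1 ∧ P0.b x = 0) ∧
    Pp.IsSubcritical kp ∧ P0.IsCritical k0 ∧
    (∃ t : ℕ → ℝ, Tendsto t atTop atTop ∧
      Tendsto (fun n => kp 0 0 (t n) / k0 0 0 (t n)) atTop atTop) ∧
    ∃ K : Set (ℝ × ℝ), IsCompact K ∧
      ¬ TendstoUniformlyOn (fun (t : ℝ) (p : ℝ × ℝ) => kp p.1 p.2 t / k0 p.1 p.2 t)
        (fun _ => 0) atTop K := by
  refine ⟨Pool.Agent.helper34.Soliton.P₁.op, Pool.Agent.helper34.Soliton.P₀.op,
    Pool.Agent.helper34.Soliton.P₁.K', Pool.Agent.helper34.Soliton.P₀.K',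
    fun x => ⟨rfl, rfl, rfl, rfl⟩, Pool.Agent.helper34.Soliton.P₁_subcritical,
    Pool.Agent.helper34.Soliton.P₀_critical,
    ⟨_, Pool.Agent.helper34.Soliton.tendsto_tn, Pool.Agent.helper34.Soliton.tendsto_ratio⟩,
    {(0, 0)}, isCompact_singleton, fun h => ?_⟩
  have h1 := (h.tendsto_at (mem_singleton _)).comp Pool.Agent.helper34.Soliton.tendsto_tn
  exact not_tendsto_nhds_of_tendsto_atTop Pool.Agent.helper34.Soliton.tendsto_ratio 0 h1

end Pool.Agent.Results.MP_13e997_an.RatioUnbounded
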